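import Mathlib
import Pool.Agent.U501.EP.Stm2
import Pool.Agent.Q83.WG.SA

/-!
# Project EP, package VS (helper337): the second derivative test for admissible functions
-/

set_option autoImplicit false

namespace Pool.Agent.U337.EP.VS

open Pool.Agent.U501.EP Set

/-- continuity and derivatives in the interior -/
def PP (φ φ' : ℝ → ℝ) (A B : ℝ) : Prop :=
  ContinuousOn φ (Icc A B) ∧ ∀ x ∈ Ioo A B, HasDerivAt φ (φ' x) x

/-- difference operator -/
def De (φ : ℝ → ℝ) (y : ℝ) : ℝ := φ (y + 1) - φ y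

theorem PP.diff {φ φ' : ℝ → ℝ} {A B : ℝ} (h : PP φ φ' A B) : PP (De φ) (De φ') A (B - 1) := by
  refine ⟨?_, ?_⟩
  · refine ContinuousOn.sub ?_ (h.1.mono (Icc_subset_Icc_right (by linarith)))
    refine h.1.comp (by fun_prop) ?_
    intro x hx
    exact ⟨by linarith [hx.1], by linarith [hx.2]⟩
  · intro x hx
    have h1 := h.2 (x + 1) ⟨by linarith [hx.1], by linarith [hx.2]⟩
    have h2 := h.2 x ⟨hx.1, by linarith [hx.2]⟩
    have h3 : HasDerivAt (fun y => φ (y + 1)) (φ' (x + 1)) x := by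
      have := h1.comp_add_const x 1
      exact this
    exact h3.sub h2

theorem PP.mvt {φ φ' : ℝ → ℝ} {A B z : ℝ} (h : PP φ φ' A B) (hz : A ≤ z) (hz' : z + 1 ≤ B) :
    ∃ ξ ∈ Ioo z (z + 1), De φ z = φ' ξ := by
  obtain ⟨ξ, hξ, he⟩ := exists_hasDerivAt_eq_slope φ φ' (a := z) (b := z + 1) (by linarith)
    (h.1.mono (Icc_subset_Icc hz hz')) (fun x hx => h.2 x ⟨by linarith [hx.1], by linarith [hx.2]⟩)
  refine ⟨ξ, hξ, ?_⟩
  rw [he]
  unfold De
  rw [add_sub_cancel_left, div_one]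

theorem second {f g1 g2 : ℝ → ℝ} {A B z : ℝ} (h1 : PP f g1 A B) (h2 : PP g1 g2 A B) (hz : A ≤ z)
    (hz' : z + 2 ≤ B) : ∃ η ∈ Icc A B, De (De f) z = g2 η := by
  obtain ⟨ξ, hξ, e1⟩ := h1.diff.mvt hz (by linarith)
  obtain ⟨η, hη, e2⟩ := h2.mvt (z := ξ) (by linarith [hξ.1]) (by linarith [hξ.2])
  exact ⟨η, ⟨by linarith [hξ.1, hη.1], by linarith [hξ.2, hη.2]⟩, e1.trans e2⟩

theorem third {f g1 g2 g3 : ℝ → ℝ} {A B z : ℝ} (h1 : PP f g1 A B) (h2 : PP g1 g2 A B) (h3 : PP g2 g3 A B)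
    (hz : A ≤ z) (hz' : z + 3 ≤ B) : ∃ η ∈ Icc A B, De (De (De f)) z = g3 η := by
  obtain ⟨ξ, hξ, e1⟩ := h1.diff.diff.mvt hz (by linarith)
  obtain ⟨η, hη, e2⟩ := h2.diff.mvt (z := ξ) (by linarith [hξ.1]) (by linarith [hξ.2])
  obtain ⟨ζ, hζ, e3⟩ := h3.mvt (z := η) (by linarith [hξ.1, hη.1]) (by linarith [hξ.2, hη.2])
  exact ⟨ζ, ⟨by linarith [hξ.1, hη.1, hζ.1], by linarith [hξ.2, hη.2, hζ.2]⟩, (e1.trans e2).trans e3⟩

theorem const_sign {g : ℝ → ℝ} {A B lam : ℝ} (hg : ContinuousOn g (Icc A B)) (hlam : 0 < lam)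
    (h : ∀ x ∈ Icc A B, lam ≤ |g x|) : (∀ x ∈ Icc A B, lam ≤ g x) ∨ ∀ x ∈ Icc A B, lam ≤ -g x := by
  by_contra hcon
  push Not at hcon
  obtain ⟨⟨x, hx, hx1⟩, ⟨y, hy, hy1⟩⟩ := hcon
  have hx2 : g x ≤ -lam := by
    rcases abs_cases (g x) with ⟨h1, h2⟩ | ⟨h1, h2⟩
    · have := h x hx; rw [h1] at this; linarith
    · have := h x hx; rw [h1] at this; linarith
  have hy2 : lam ≤ g y := by
    rcases abs_cases (g y) with ⟨h1, h2⟩ | ⟨h1, h2⟩
    · have := h y hy; rw [h1] at this; linarith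
    · have := h y hy; rw [h1] at this; linarith
  have hconn : IsPreconnected (g '' Icc A B) := isPreconnected_Icc.image g hg
  have h0 : (0 : ℝ) ∈ g '' Icc A B :=
    hconn.ordConnected.out ⟨x, hx, rfl⟩ ⟨y, hy, rfl⟩ ⟨by linarith, by linarith⟩
  obtain ⟨z, hz, hz0⟩ := h0
  have := h z hz
  rw [hz0, abs_zero] at this
  linarith

theorem adm_PP {f : ℝ → ℝ} {N : ℝ} (hN : 0 < N) (hf : ContDiffOn ℝ (⊤ : ℕ∞) f (Icc N (2 * N))) (j : ℕ) :
    PP (iteratedDerivWithin j f (Icc N (2 * N))) (iteratedDerivWithin (j + 1) f (Icc N (2 * N))) N (2 * N) := by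
  have hu : UniqueDiffOn ℝ (Icc N (2 * N)) := uniqueDiffOn_Icc (by linarith)
  refine ⟨hf.continuousOn_iteratedDerivWithin (by exact_mod_cast le_top) hu, ?_⟩
  intro x hx
  have hd : DifferentiableOn ℝ (iteratedDerivWithin j f (Icc N (2 * N))) (Icc N (2 * N)) :=
    hf.differentiableOn_iteratedDerivWithin (by exact_mod_cast (ENat.natCast_lt_top j)) hu
  have hnhds : Icc N (2 * N) ∈ nhds x := Icc_mem_nhds hx.1 hx.2
  have h1 := (hd x (Ioo_subset_Icc_self hx)).hasDerivWithinAt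
  rw [iteratedDerivWithin_succ]
  exact h1.hasDerivAt hnhds

open Pool.Agent.H469R2.NK (e norm_e conj_e)
open Pool.Agent.Q83.WG (dd vdc2)

theorem ee_eq (x : ℝ) : ee x = e x := by
  unfold ee e
  congr 1
  push_cast; ring

theorem nsum_le (x : ℕ → ℝ) (L : ℕ) : ‖∑ n ∈ Finset.range L, e (x n)‖ ≤ L := by
  refine (norm_sum_le _ _).trans ?_
  simp [norm_e]

theorem norm_neg_sum (x : ℕ → ℝ) (L : ℕ) :
    ‖∑ n ∈ Finset.range L, e (-(x n))‖ = ‖∑ n ∈ Finset.range L, e (x n)‖ := by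
  have : ∑ n ∈ Finset.range L, e (-(x n)) = (starRingEnd ℂ) (∑ n ∈ Finset.range L, e (x n)) := by
    rw [map_sum]
    exact Finset.sum_congr rfl fun n _ => (conj_e _).symm
  rw [this, RCLike.norm_conj]

theorem core (x : ℕ → ℝ) (L : ℕ) (N F c2 C2 : ℝ) (hN : 2 ≤ N) (hNF : N ≤ F) (hc2 : 0 < c2) (hcC : c2 ≤ C2)
    (hL : (L : ℝ) ≤ N) (h1 : ∀ n, n + 2 ≤ L → c2 * F / N ^ 2 ≤ dd x n)
    (h2 : ∀ n, n + 2 ≤ L → dd x n ≤ C2 * F / N ^ 2) (hm : ∀ n, n + 3 ≤ L → dd x n ≤ dd x (n + 1)) :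
    ‖∑ n ∈ Finset.range L, e (x n)‖ ≤ (Real.sqrt (2 * (1 + 4 * C2) * (1 + 4 / c2)) + 2 * Real.sqrt C2) *
      (Real.sqrt F * Real.sqrt (1 + Real.log N)) := by
  have hN0 : 0 < N := by linarith
  have hF0 : 0 < F := by linarith
  have hC2 : 0 < C2 := hc2.trans_le hcC
  have hlog : 0 ≤ Real.log N := Real.log_nonneg (by linarith)
  have hs1 : 1 ≤ Real.sqrt (1 + Real.log N) := by
    rw [Real.one_le_sqrt]; linarith
  have hR : 0 ≤ Real.sqrt F * Real.sqrt (1 + Real.log N) := by positivity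
  by_cases hbig : C2 * F / N ^ 2 ≤ 1 / 4
  · rcases Nat.eq_zero_or_pos L with rfl | hLpos
    · simp only [Finset.range_zero, Finset.sum_empty, norm_zero]
      positivity
    have hL1 : (1 : ℝ) ≤ L := by exact_mod_cast hLpos
    have key := vdc2 x L hLpos (c2 * F / N ^ 2) (C2 * F / N ^ 2) (by positivity) hbig h1 h2 hm
      (by gcongr)
    have hlogL : Real.log L ≤ Real.log N := Real.log_le_log (by linarith) hL
    have hlogL0 : 0 ≤ Real.log L := Real.log_nonneg hL1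
    have e1 : 1 + 4 * (C2 * F / N ^ 2) * L ≤ (1 + 4 * C2) * (F / N) := by
      have a1 : 1 ≤ F / N := by rw [le_div_iff₀ hN0]; linarith
      have a2 : 4 * (C2 * F / N ^ 2) * L ≤ 4 * (C2 * F / N ^ 2) * N :=
        mul_le_mul_of_nonneg_left hL (by positivity)
      have a3 : 4 * (C2 * F / N ^ 2) * N = 4 * C2 * (F / N) := by field_simp
      rw [a3] at a2
      linarith
    have e2 : (L : ℝ) + 4 / (c2 * F / N ^ 2) * (1 + Real.log L) ≤ N * ((1 + 4 / c2) * (1 + Real.log N)) := by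
      have a1 : 4 / (c2 * F / N ^ 2) = 4 / c2 * (N * (N / F)) := by field_simp
      have a2 : N * (N / F) ≤ N * 1 := by
        refine mul_le_mul_of_nonneg_left ?_ hN0.le
        rw [div_le_one hF0]; exact hNF
      rw [a1]
      have a3 : 4 / c2 * (N * (N / F)) * (1 + Real.log L) ≤ 4 / c2 * (N * 1) * (1 + Real.log N) := by
        gcongr
      have a4 : (L : ℝ) ≤ N * (1 + Real.log N) := by nlinarith
      nlinarith
    have e3 : 2 * (1 + 4 * (C2 * F / N ^ 2) * L) * (L + 4 / (c2 * F / N ^ 2) * (1 + Real.log L)) ≤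
        (2 * (1 + 4 * C2) * (1 + 4 / c2)) * (F * (1 + Real.log N)) := by
      have b1 : 0 ≤ (L : ℝ) + 4 / (c2 * F / N ^ 2) * (1 + Real.log L) := by positivity
      have b2 : 2 * (1 + 4 * (C2 * F / N ^ 2) * L) * (L + 4 / (c2 * F / N ^ 2) * (1 + Real.log L)) ≤
          2 * ((1 + 4 * C2) * (F / N)) * (N * ((1 + 4 / c2) * (1 + Real.log N))) := by
        gcongr
      refine b2.trans (le_of_eq ?_)
      field_simp
    have e4 := key.trans e3
    have e5 : ‖∑ n ∈ Finset.range L, e (x n)‖ ≤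
        Real.sqrt ((2 * (1 + 4 * C2) * (1 + 4 / c2)) * (F * (1 + Real.log N))) :=
      Real.le_sqrt_of_sq_le e4
    rw [Real.sqrt_mul (by positivity), Real.sqrt_mul hF0.le] at e5
    refine e5.trans ?_
    refine mul_le_mul_of_nonneg_right ?_ hR
    linarith [Real.sqrt_nonneg C2]
  · push Not at hbig
    have hNle : N ≤ 2 * Real.sqrt C2 * Real.sqrt F := by
      have a1 : N ^ 2 ≤ (2 * Real.sqrt C2 * Real.sqrt F) ^ 2 := by
        rw [mul_pow, mul_pow, Real.sq_sqrt hC2.le, Real.sq_sqrt hF0.le]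
        rw [lt_div_iff₀ (by positivity)] at hbig
        nlinarith
      exact le_of_sq_le_sq a1 (by positivity)
    calc ‖∑ n ∈ Finset.range L, e (x n)‖ ≤ L := nsum_le x L
      _ ≤ N := hL
      _ ≤ 2 * Real.sqrt C2 * Real.sqrt F := hNle
      _ ≤ 2 * Real.sqrt C2 * (Real.sqrt F * Real.sqrt (1 + Real.log N)) := by
        refine mul_le_mul_of_nonneg_left ?_ (by positivity)
        exact le_mul_of_one_le_right (Real.sqrt_nonneg _) hs1
      _ ≤ _ := by
        refine mul_le_mul_of_nonneg_right ?_ hR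
        linarith [Real.sqrt_nonneg (2 * (1 + 4 * C2) * (1 + 4 / c2))]

/-- the sum over all but the last term -/
theorem main_sum {f g1 g2 g3 : ℝ → ℝ} {N F c2 C2 : ℝ} (hN : 2 ≤ N) (hNF : N ≤ F) (hc2 : 0 < c2)
    (hcC : c2 ≤ C2) (P0 : PP f g1 N (2 * N)) (P1 : PP g1 g2 N (2 * N)) (P2 : PP g2 g3 N (2 * N))
    (σ : ℝ) (hσ : σ = 1 ∨ σ = -1)
    (hlo : ∀ y ∈ Icc N (2 * N), c2 * F / N ^ 2 ≤ σ * g2 y) (hhi : ∀ y ∈ Icc N (2 * N), σ * g2 y ≤ C2 * F / N ^ 2)
    (h3 : (∀ y ∈ Icc N (2 * N), 0 ≤ σ * g3 y) ∨ ∀ y ∈ Icc N (2 * N), σ * g3 y ≤ 0)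
    (a b : ℕ) (t : ℝ) (ht0 : 0 ≤ t) (ht1 : t ≤ 1) (ha : N ≤ a) (hb : (b : ℝ) + 1 ≤ 2 * N) (hab : a ≤ b) :
    ‖∑ n ∈ Finset.Icc a b, ee (f ((n : ℝ) + t))‖ ≤
      (Real.sqrt (2 * (1 + 4 * C2) * (1 + 4 / c2)) + 2 * Real.sqrt C2) *
      (Real.sqrt F * Real.sqrt (1 + Real.log N)) + 1 := by
  obtain ⟨M, hM⟩ : ∃ M : ℕ, b = a + M := ⟨b - a, by omega⟩
  have hMr : (b : ℝ) = a + M := by rw [hM]; push_cast; rfl
  have hML : (M : ℝ) ≤ N := by linarith
  have hI : Finset.Icc a b = Finset.Ico a (b + 1) := by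
    ext n; rw [Finset.mem_Icc, Finset.mem_Ico]; omega
  have hlen : b + 1 - a = M + 1 := by omega
  rcases h3 with h3 | h3
  · -- forward
    obtain ⟨x, hx⟩ : ∃ x : ℕ → ℝ, ∀ i, x i = σ * f ((a : ℝ) + i + t) := ⟨_, fun _ => rfl⟩
    have hdd : ∀ n, dd x n = σ * De (De f) ((a : ℝ) + n + t) := by
      intro n
      unfold dd De
      rw [hx, hx, hx]
      have q1 : (a : ℝ) + ((n + 2 : ℕ) : ℝ) + t = a + n + t + 1 + 1 := by push_cast; ring
      have q2 : (a : ℝ) + ((n + 1 : ℕ) : ℝ) + t = a + n + t + 1 := by push_cast; ring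
      rw [q1, q2]
      ring
    have hcore := core x M N F c2 C2 hN hNF hc2 hcC hML (by
      intro n hn
      have hn' : (n : ℝ) + 2 ≤ M := by exact_mod_cast hn
      obtain ⟨η, hη, he⟩ := second (z := (a : ℝ) + n + t) P0 P1 (by linarith [Nat.cast_nonneg (α := ℝ) n]) (by linarith)
      rw [hdd, he]
      exact hlo η hη) (by
      intro n hn
      have hn' : (n : ℝ) + 2 ≤ M := by exact_mod_cast hn
      obtain ⟨η, hη, he⟩ := second (z := (a : ℝ) + n + t) P0 P1 (by linarith [Nat.cast_nonneg (α := ℝ) n]) (by linarith)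
      rw [hdd, he]
      exact hhi η hη) (by
      intro n hn
      have hn' : (n : ℝ) + 3 ≤ M := by exact_mod_cast hn
      obtain ⟨η, hη, he⟩ := third (z := (a : ℝ) + n + t) P0 P1 P2 (by linarith [Nat.cast_nonneg (α := ℝ) n]) (by linarith)
      have h5 := h3 η hη
      rw [← he] at h5
      have q2 : (a : ℝ) + ((n + 1 : ℕ) : ℝ) + t = a + n + t + 1 := by push_cast; ring
      have h6 : De (De (De f)) ((a : ℝ) + n + t) = De (De f) (a + n + t + 1) - De (De f) (a + n + t) := rfl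
      rw [h6, mul_sub] at h5
      rw [hdd, hdd, q2]
      linarith)
    have hsum : ∑ n ∈ Finset.Icc a b, ee (f ((n : ℝ) + t)) =
        ∑ i ∈ Finset.range M, e (f ((a : ℝ) + i + t)) + e (f ((a : ℝ) + M + t)) := by
      rw [hI, Finset.sum_Ico_eq_sum_range, hlen, Finset.sum_range_succ]
      congr 1
      · refine Finset.sum_congr rfl fun i _ => ?_
        rw [ee_eq]; push_cast; rfl
      · rw [ee_eq]; push_cast; rfl
    have hnorm : ‖∑ i ∈ Finset.range M, e (f ((a : ℝ) + i + t))‖ = ‖∑ i ∈ Finset.range M, e (x i)‖ := by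
      rcases hσ with h | h
      · simp only [hx, h, one_mul]
      · have : ∀ i, x i = -(f ((a : ℝ) + i + t)) := fun i => by rw [hx, h]; ring
        simp only [this]
        rw [norm_neg_sum]
    rw [hsum]
    refine (norm_add_le _ _).trans ?_
    rw [hnorm, norm_e]
    linarith
  · -- backward
    obtain ⟨x, hx⟩ : ∃ x : ℕ → ℝ, ∀ i, x i = σ * f ((b : ℝ) - i + t) := ⟨_, fun _ => rfl⟩
    have hdd : ∀ n, dd x n = σ * De (De f) ((b : ℝ) - n - 2 + t) := by
      intro n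
      unfold dd De
      rw [hx, hx, hx]
      have q1 : (b : ℝ) - ((n + 2 : ℕ) : ℝ) + t = b - n - 2 + t := by push_cast; ring
      have q2 : (b : ℝ) - ((n + 1 : ℕ) : ℝ) + t = b - n - 2 + t + 1 := by push_cast; ring
      have q3 : (b : ℝ) - (n : ℝ) + t = b - n - 2 + t + 1 + 1 := by ring
      rw [q1, q2, q3]
      ring
    have hcore := core x M N F c2 C2 hN hNF hc2 hcC hML (by
      intro n hn
      have hn' : (n : ℝ) + 2 ≤ M := by exact_mod_cast hn
      obtain ⟨η, hη, he⟩ := second (z := (b : ℝ) - n - 2 + t) P0 P1 (by linarith) (by linarith [Nat.cast_nonneg (α := ℝ) n])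
      rw [hdd, he]
      exact hlo η hη) (by
      intro n hn
      have hn' : (n : ℝ) + 2 ≤ M := by exact_mod_cast hn
      obtain ⟨η, hη, he⟩ := second (z := (b : ℝ) - n - 2 + t) P0 P1 (by linarith) (by linarith [Nat.cast_nonneg (α := ℝ) n])
      rw [hdd, he]
      exact hhi η hη) (by
      intro n hn
      have hn' : (n : ℝ) + 3 ≤ M := by exact_mod_cast hn
      obtain ⟨η, hη, he⟩ := third (z := (b : ℝ) - n - 3 + t) P0 P1 P2 (by linarith) (by linarith [Nat.cast_nonneg (α := ℝ) n])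
      have h5 := h3 η hη
      rw [← he] at h5
      have q2 : (b : ℝ) - ((n + 1 : ℕ) : ℝ) - 2 + t = b - n - 3 + t := by push_cast; ring
      have q3 : (b : ℝ) - n - 3 + t + 1 = b - n - 2 + t := by ring
      have h6 : De (De (De f)) ((b : ℝ) - n - 3 + t) = De (De f) (b - n - 3 + t + 1) - De (De f) (b - n - 3 + t) := rfl
      rw [h6, mul_sub, q3] at h5
      rw [hdd, hdd, q2]
      linarith)
    have hsum : ∑ n ∈ Finset.Icc a b, ee (f ((n : ℝ) + t)) =
        ∑ i ∈ Finset.range M, e (f ((b : ℝ) - i + t)) + e (f ((b : ℝ) - M + t)) := by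
      rw [hI, Finset.sum_Ico_eq_sum_range, hlen, ← Finset.sum_range_reflect, ← Finset.sum_range_succ]
      refine Finset.sum_congr rfl fun i hi => ?_
      have hi' : i ≤ M := Nat.lt_succ_iff.1 (Finset.mem_range.1 hi)
      rw [ee_eq]
      congr 2
      have : ((a + (M + 1 - 1 - i) : ℕ) : ℝ) = b - i := by
        rw [hMr, Nat.add_sub_cancel, Nat.cast_add, Nat.cast_sub hi']; ring
      rw [this]
    have hnorm : ‖∑ i ∈ Finset.range M, e (f ((b : ℝ) - i + t))‖ = ‖∑ i ∈ Finset.range M, e (x i)‖ := by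
      rcases hσ with h | h
      · simp only [hx, h, one_mul]
      · have : ∀ i, x i = -(f ((b : ℝ) - i + t)) := fun i => by rw [hx, h]; ring
        simp only [this]
        rw [norm_neg_sum]
    rw [hsum]
    refine (norm_add_le _ _).trans ?_
    rw [hnorm, norm_e]
    linarith

theorem t_VS : S_VS := by
  intro c C hc hC
  refine ⟨Real.sqrt (2 * (1 + 4 * C 2) * (1 + 4 / c 2)) + 2 * Real.sqrt (C 2) + 1, by positivity, ?_⟩
  intro N F f a b t hN hNF hf ht0 ht1 ha hb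
  have hN0 : 0 < N := by linarith
  have hF0 : 0 < F := by linarith
  obtain ⟨hsm, hadm⟩ := hf
  rw [← Real.sqrt_eq_rpow, ← Real.sqrt_eq_rpow]
  have hlog : 0 ≤ Real.log N := Real.log_nonneg (by linarith)
  have hR1 : 1 ≤ Real.sqrt F * Real.sqrt (1 + Real.log N) := by
    have r1 : 1 ≤ Real.sqrt F := by rw [Real.one_le_sqrt]; linarith
    have r2 : 1 ≤ Real.sqrt (1 + Real.log N) := by rw [Real.one_le_sqrt]; linarith
    nlinarith
  rcases Nat.lt_or_ge b a with hab | hab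
  · rw [Finset.Icc_eq_empty (by omega), Finset.sum_empty, norm_zero]
    positivity
  have hNmem : N ∈ Icc N (2 * N) := ⟨le_rfl, by linarith⟩
  have hcC : c 2 ≤ C 2 := by
    obtain ⟨q1, q2⟩ := hadm 2 N hNmem
    have q3 := q1.trans q2
    rw [div_le_div_iff_of_pos_right (by positivity)] at q3
    exact le_of_mul_le_mul_right q3 hF0
  have P0 := adm_PP hN0 hsm 0
  have P1 := adm_PP hN0 hsm 1
  have P2 := adm_PP hN0 hsm 2
  rw [iteratedDerivWithin_zero] at P0
  have hlam : 0 < c 2 * F / N ^ 2 := by have := hc 2; positivity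
  have hlam3 : 0 < c 3 * F / N ^ 3 := by have := hc 3; positivity
  have s2 := const_sign P2.1 hlam (fun y hy => (hadm 2 y hy).1)
  have s3 := const_sign (adm_PP hN0 hsm 3).1 hlam3 (fun y hy => (hadm 3 y hy).1)
  have key : ‖∑ n ∈ Finset.Icc a b, ee (f ((n : ℝ) + t))‖ ≤
      (Real.sqrt (2 * (1 + 4 * C 2) * (1 + 4 / c 2)) + 2 * Real.sqrt (C 2)) *
      (Real.sqrt F * Real.sqrt (1 + Real.log N)) + 1 := by
    rcases s2 with s2 | s2
    · refine main_sum hN hNF (hc 2) hcC P0 P1 P2 1 (Or.inl rfl) (fun y hy => by rw [one_mul]; exact s2 y hy)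
        (fun y hy => by rw [one_mul]; exact (le_abs_self _).trans (hadm 2 y hy).2) ?_ a b t ht0 ht1 ha hb hab
      rcases s3 with s3 | s3
      · left; intro y hy; have := s3 y hy; linarith
      · right; intro y hy; have := s3 y hy; linarith
    · refine main_sum hN hNF (hc 2) hcC P0 P1 P2 (-1) (Or.inr rfl) (fun y hy => by rw [neg_one_mul]; exact s2 y hy)
        (fun y hy => by rw [neg_one_mul]; exact (neg_le_abs _).trans (hadm 2 y hy).2) ?_ a b t ht0 ht1 ha hb hab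
      rcases s3 with s3 | s3
      · right; intro y hy; have := s3 y hy; linarith
      · left; intro y hy; have := s3 y hy; linarith
  refine key.trans ?_
  rw [add_mul _ (1 : ℝ), one_mul]
  linarith

end Pool.Agent.U337.EP.VS

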